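import Pool.Agent.Helper18.SRT.Row
import Pool.Agent.Helper29.MX.Bas

/-! (F9) SWAP OF PREFIXES. Two classes of labels, the smaller one (exact kernels from a resolution `R'` of the point) in the
larger one; if the volumes of the hulls of the point are the same, then the volumes of the hulls of all prefixes are the
same, provided the prefixes fill their hulls over the labels of the smaller class (structure theorem in smaller
dimension). Any order of the coordinates. -/

set_option autoImplicit false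

namespace Pool.Agent.Helper99.MX

open Finset Filter Topology Matrix Pool.Agent.Helper69.RK Pool.Agent.Helper31.EC Pool.Agent.Helper31.EC.Sp
open Pool.Agent.Helper40.EL Pool.Agent.Helper89.LX Pool.Agent.Helper3.LF Pool.Agent.Helper84.MT
open Pool.Agent.Helper36.AM Pool.Agent.Helper84.KR Pool.Agent.Helper89.RAK
open Pool.Agent.Helper7.RD (volC volCO volC_eq volC_le_of volCO_le volCO_le_M volCO_mono adfK_mono optK_dom volCO_bdd)
open Pool.Agent.Helper18.PRM Pool.Agent.Helper18.SRT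
open Pool.Agent.Helper87.NSL (cndR KnS)
open Pool.Agent.Helper29.MX

noncomputable section

variable {S : Sp} {M m N D : ℕ} {E : ℕ → ℕ} {ι κ κ' : Type}

/-! ### classes of labels with the same labels -/

/-- optimal forms depend on the class only through its labels -/
theorem optK_congr {C C' : LC S} {A : κ → Part S} {Q : S.VV M} (h : ∀ l : Lab S, C.ev l ↔ C'.ev l)
    {x : ∀ k, FD (S.F k) (Mon M D)} (hx : (gaq Q D).OptfK C A x) : (gaq Q D).OptfK C' A x :=
  ⟨⟨hx.1.1, (h _).mp hx.1.2⟩, fun y hy => hx.2 y ⟨hy.1, (h _).mpr hy.2⟩⟩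

theorem kz_congr {B B' : Part S} (h : ∀ᶠ k in UF, B k = B' k) (l : Lab S) : (LC.kz B).ev l ↔ (LC.kz B').ev l :=
  ⟨LC.kz_mono (h.mono fun _ e => e.le), LC.kz_mono (h.mono fun _ e => e.ge)⟩

/-- a resolution of the point can be taken literal -/
theorem fc_lit {R : ∀ k, Setoid (S.F k).Ω} {Q : S.VV M} (hR : KnS R Q.v) :
    ∀ᶠ k in UF, fc (R k) = fc (R k ⊓ Setoid.ker (Q.cellv 1 k)) := by
  filter_upwards [hR] with k hk
  apply le_antisymm
  · exact fc_le fun ω ω' _ _ _ h => h.1
  · refine fc_le fun ω ω' a b z h => ⟨h, ?_⟩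
    have h1 := hk ω ω' a b z h
    show Q.cellv 1 k ω = Q.cellv 1 k ω'
    unfold VV.cellv
    rw [h1]

/-! ### one coordinate -/

section step
variable {Q : S.VV M} {C : LC S} {A : κ → Part S} {R : ∀ k, Setoid (S.F k).Ω} {A' : κ' → Part S}

/-- the difference of the volumes of the smaller and of the larger class increases with the number of coordinates; fixed
degree -/
theorem swp_deg [Finite κ] [Finite κ'] (hD : 1 ≤ D) (σ : Fin (m + 1) → Fin M) (hσ : Function.Injective σ)
    (j : Fin (m + 1)) (hR : KnS R (vcrd σ Q).v) (hC : ∀ l : Lab S, (LC.kz fun k => fc (R k)).ev l → C.ev l)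
    (hA : ∀ i, ∃ j, PLe (A' j) (A i)) {v : ℝ}
    (hst : ∀ l : Lab S, l.DMf A' → (LC.kz fun k => fc (R k)).ev l → v ≤ H (up1 l ((vcrd (σ ∘ j.succAbove) Q).dg 1))) :
    v - volC C A (vcrd (σ ∘ j.succAbove) Q) D ≤
      volC (LC.kz fun k => fc (R k)) A' (vcrd σ Q) D - volC C A (vcrd σ Q) D := by
  have hτ : Function.Injective (σ ∘ j.succAbove) := hσ.comp Fin.succAbove_right_injective
  obtain ⟨x, hx⟩ := (gaq Q D).exists_optfK C A
  obtain ⟨y, hy⟩ := (gaq Q D).exists_optfK (LC.kz fun k => fc (R k)) A'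
  rw [volC_prt hx σ hσ, volC_prt hx _ hτ, volC_prt hy σ hσ]
  have h1 := prt_one (j := j) (σ := σ) (hσ := hσ) (hτ := hτ) (P := vcrd σ Q) (P' := vcrd (σ ∘ j.succAbove) Q)
    (fun _ _ _ => rfl) (fun _ _ _ => rfl) (fun _ => rfl) hx
  have hx' : (gaq (vcrd σ Q) D).OptfK C A (prt σ hσ x) := optK_crd hx σ hσ
  have hy' := optK_crd hy σ hσ
  have hyx : (gaq (vcrd σ Q) D).AdfK C A (prt σ hσ y) := adfK_mono hy'.1 hA hC
  have h2 := (optK_dom hx' hyx).zx_le hx'.1.1 hyx.1 j
  have hyl : (gaq Q D).OptfK (LC.kz fun k => fc (R k ⊓ Setoid.ker ((vcrd σ Q).cellv 1 k))) A' y :=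
    optK_congr (kz_congr (fc_lit hR)) hy
  have h3 := prt_low (j := j) (σ := σ) (hσ := hσ) (τ := σ ∘ j.succAbove) (P := vcrd σ Q)
    (P' := vcrd (σ ∘ j.succAbove) Q) (fun _ _ _ => rfl) (fun _ _ _ => rfl) (fun _ => rfl) hD
    (fun k => inf_le_right) hyl
  have h4 := hst (lb y) (Gau.Adf.dm (gaq Q D) hy.1.1) hy.1.2
  linarith

/-- the same in all degrees -/
theorem swp_step [Finite κ] [Finite κ'] (σ : Fin (m + 1) → Fin M) (hσ : Function.Injective σ)
    (j : Fin (m + 1)) (hR : KnS R (vcrd σ Q).v) (hC : ∀ l : Lab S, (LC.kz fun k => fc (R k)).ev l → C.ev l)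
    (hA : ∀ i, ∃ j, PLe (A' j) (A i))
    (hst : ∀ l : Lab S, l.DMf A' → (LC.kz fun k => fc (R k)).ev l →
      volCO (LC.kz fun k => fc (R k)) A' (vcrd (σ ∘ j.succAbove) Q) ≤ H (up1 l ((vcrd (σ ∘ j.succAbove) Q).dg 1))) :
    volCO (LC.kz fun k => fc (R k)) A' (vcrd (σ ∘ j.succAbove) Q) - volCO C A (vcrd (σ ∘ j.succAbove) Q) ≤
      volCO (LC.kz fun k => fc (R k)) A' (vcrd σ Q) - volCO C A (vcrd σ Q) := by
  apply le_of_forall_pos_le_add
  intro ε hε
  obtain ⟨D1, h1⟩ := exists_lt_of_ciInf_lt (show (⨅ D : ℕ, volC (LC.kz fun k => fc (R k)) A' (vcrd σ Q) D) <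
    volCO (LC.kz fun k => fc (R k)) A' (vcrd σ Q) + ε / 2 by
      show volCO _ _ _ < _
      linarith)
  obtain ⟨D2, h2⟩ := exists_lt_of_ciInf_lt (show (⨅ D : ℕ, volC C A (vcrd (σ ∘ j.succAbove) Q) D) <
    volCO C A (vcrd (σ ∘ j.succAbove) Q) + ε / 2 by
      show volCO _ _ _ < _
      linarith)
  set D := max (max D1 D2) 1 with hD
  have a1 := volC_deg (vcrd σ Q) (LC.kz fun k => fc (R k)) A' ((le_max_left D1 D2).trans (le_max_left _ 1))
  have a2 := volC_deg (vcrd (σ ∘ j.succAbove) Q) C A ((le_max_right D1 D2).trans (le_max_left _ 1))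
  have a3 := volCO_le (C := C) (A := A) (Q := vcrd σ Q) D
  have a4 := swp_deg (D := D) (le_max_right _ _) σ hσ j hR hC hA hst
  linarith

end step

/-! ### all prefixes -/

section all
variable {Q : S.VV M} {C : LC S} {A : κ → Part S} {R : ∀ k, Setoid (S.F k).Ω} {A' : κ' → Part S}

/-- the prefix with `j` coordinates of the point, in the order `σ` -/
abbrev pfs (σ : Fin N → Fin M) (Q : S.VV M) {j : ℕ} (hj : j ≤ N) : S.VV j := vcrd (fun i : Fin j => σ (Fin.castLE hj i)) Q

/-- **SWAP OF PREFIXES**, in the order `σ` -/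
theorem swp [Finite κ] [Finite κ'] (σ : Fin N → Fin M) (hσ : Function.Injective σ) (hR : KnS R Q.v)
    (hC : ∀ l : Lab S, (LC.kz fun k => fc (R k)).ev l → C.ev l) (hA : ∀ i, ∃ j, PLe (A' j) (A i))
    (hst : ∀ (j : ℕ) (hj : j < N) (l : Lab S), l.DMf A' → (LC.kz fun k => fc (R k)).ev l →
      volCO (LC.kz fun k => fc (R k)) A' (pfs σ Q hj.le) ≤ H (up1 l ((pfs σ Q hj.le).dg 1)))
    (htot : volCO (LC.kz fun k => fc (R k)) A' (vcrd σ Q) ≤ volCO C A (vcrd σ Q)) {j : ℕ} (hj : j ≤ N) :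
    volCO (LC.kz fun k => fc (R k)) A' (pfs σ Q hj) = volCO C A (pfs σ Q hj) := by
  have hinj : ∀ {j : ℕ} (hj : j ≤ N), Function.Injective (fun i : Fin j => σ (Fin.castLE hj i)) := fun hj a b hab =>
    Fin.castLE_injective hj (hσ hab)
  have key : ∀ (n j : ℕ) (hj : j + n ≤ N),
      volCO (LC.kz fun k => fc (R k)) A' (pfs σ Q (Nat.le_of_add_right_le hj)) -
        volCO C A (pfs σ Q (Nat.le_of_add_right_le hj)) ≤
      volCO (LC.kz fun k => fc (R k)) A' (pfs σ Q hj) - volCO C A (pfs σ Q hj) := by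
    intro n
    induction n with
    | zero => intro j hj; exact le_rfl
    | succ n ih =>
      intro j hj
      have hj' : j + n < N := by omega
      have h1 := ih j hj'.le
      have e : ((fun i : Fin (j + n + 1) => σ (Fin.castLE hj i)) ∘ (Fin.last (j + n)).succAbove) =
          fun i : Fin (j + n) => σ (Fin.castLE hj'.le i) := by
        funext i
        show σ (Fin.castLE hj ((Fin.last (j + n)).succAbove i)) = _
        rw [Fin.succAbove_last]
        rfl
      have hR' : KnS R (pfs σ Q hj).v := hR.mono fun k hk ω ω' a b z h => by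
        funext i
        show Q.v k ω _ = Q.v k ω' _
        rw [hk ω ω' a b z h]
      have h2 := swp_step (C := C) (A := A) (A' := A') (Q := Q) (fun i : Fin (j + n + 1) => σ (Fin.castLE hj i))
        (hinj hj) (Fin.last _) hR' hC hA (by
          rw [e]
          exact hst (j + n) hj')
      rw [e] at h2
      exact h1.trans h2
  have h1 := key (N - j) j (by omega)
  have h2 : ∀ (j' : ℕ) (hj' : j' ≤ N) (_ : j' = N),
      volCO (LC.kz fun k => fc (R k)) A' (pfs σ Q hj') - volCO C A (pfs σ Q hj') ≤ 0 := by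
    intro j' hj' h
    subst h
    have e : (fun i : Fin j' => σ (Fin.castLE hj' i)) = σ := rfl
    have e1 : pfs σ Q hj' = vcrd σ Q := rfl
    rw [e1]
    linarith
  have h3 := h2 (j + (N - j)) (by omega) (by omega)
  have h4 : volCO C A (pfs σ Q hj) ≤ volCO (LC.kz fun k => fc (R k)) A' (pfs σ Q hj) := volCO_mono hA hC
  have h5 : volCO (LC.kz fun k => fc (R k)) A' (pfs σ Q hj) - volCO C A (pfs σ Q hj) ≤ 0 := h1.trans h3
  linarith

end all

/-! ### the language of MX -/

/-- a coarser resolution has fewer K-labels -/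
theorem kz_coarse {R R' : Rsl S} (h : ∀ᶠ k in UF, R k ≤ R' k) {l : Lab S} (hl : (KZ R').ev l) : (KZ R).ev l :=
  LC.kz_mono (h.mono fun k hk => fc_le fun _ _ _ _ _ a => hk a) hl

theorem cnd_coarse (s : MSys S M E ι) {R R' : Rsl S} (h : ∀ᶠ k in UF, R k ≤ R' k) (c : ℝ) (i : Option ι) :
    ∃ j, PLe (cndR s R' c j) (cndR s R c i) := by
  rcases i with _ | i
  · refine ⟨none, ?_⟩
    refine (Nul_zero S).of_le (Eventually.of_forall fun k => h_nonneg _ _) ?_
    filter_upwards [h] with k hk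
    have h1 : fc (R' k) ≤ fc (R k) := fc_le fun _ _ _ _ _ a => hk a
    exact (h_zero h1).le
  · exact ⟨some i, PLe.refl _⟩

/-- **SWAP OF PREFIXES** for two resolutions: `R'` coarser than `R` -/
theorem swpR [Finite ι] {s : MSys S N E ι} {R R' : Rsl S} (h : ∀ᶠ k in UF, R k ≤ R' k) (hR : Pt s R') {c : ℝ}
    (hst : ∀ (j : ℕ) (hj : j < N) (l : Lab S), KLb s R' c l → volP s R' c hj.le ≤ H (up1 l ((pfx s.Q hj.le).dg 1)))
    (htot : volKO s R' c ≤ volKO s R c) {j : ℕ} (hj : j ≤ N) : volP s R' c hj = volP s R c hj := by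
  rw [volKO_eq, volKO_eq] at htot
  exact swp (σ := id) Function.injective_id hR (fun l hl => kz_coarse h hl) (cnd_coarse s h c)
    (fun j hj l h1 h2 => hst j hj l ⟨h1, h2⟩) htot hj

end

end Pool.Agent.Helper99.MX
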