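import Pool.Agent.Helper99.MX.Frx
import Pool.Agent.Helper95.VIS.Viso

/-! OPTIMAL FORMS OVER FRAMES. If the box of a frame of a label has the volume of the hull of a class of exact labels, then
the form of the box is optimal in every degree (helper7: the zoom has no gain; helper26: then the form of the box
dominates). Literal labels: the label is a minimal carrier if and only if it is known to the roundings of the form of the
box. -/

set_option autoImplicit false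

namespace Pool.Agent.Helper99.MX

open Finset Filter Topology Matrix MvPolynomial Pool.Agent.Helper69.RK Pool.Agent.Helper31.EC
open Pool.Agent.Helper31.EC.Sp
open Pool.Agent.Helper40.EL Pool.Agent.Helper89.LX Pool.Agent.Helper3.LF Pool.Agent.Helper84.MT
open Pool.Agent.Helper95.LF Pool.Agent.Helper36.AM Pool.Agent.Helper7.GZ Pool.Agent.Helper26.BXD
open Pool.Agent.Helper95.VIS (rdm rC one_le_rC rX rv rG rv_supp rX_ge rdm_eq_near MinC opt_knows sqrt_pow sqrt_tendsto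
  domJ_sc_le)
open Pool.Agent.Helper33.LIT Pool.Agent.Helper66.NJ Pool.Agent.Helper49.KL
open Pool.Agent.Helper7.RD (FD0 volC volCO volC_le_of volCO_le upz)
open Pool.Agent.Helper89.RAK (DomJ)

noncomputable section

variable {S : Sp} {M D : ℕ} {Q : S.VV M} {l : Lab S} {La : Fin M → ℝ} {κ : ℕ} {ι : Type}

/-- a common unit -/
theorem exists_unit (La : Fin M → ℝ) (h1 : ∀ j, La j < 1) : ∃ e : ℝ, 0 < e ∧ e ≤ 1 ∧ ∀ j, La j + e ≤ 1 := by
  induction M with
  | zero => exact ⟨1, one_pos, le_rfl, fun j => j.elim0⟩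
  | succ M ih =>
    obtain ⟨e, h2, h3, h4⟩ := ih (fun j => La j.castSucc) fun j => h1 _
    refine ⟨min e (1 - La (Fin.last M)), lt_min h2 (by linarith [h1 (Fin.last M)]), (min_le_left _ _).trans h3, fun j => ?_⟩
    refine Fin.lastCases ?_ (fun i => ?_) j
    · have := min_le_right e (1 - La (Fin.last M))
      linarith
    · have h5 := h4 i
      have := min_le_left e (1 - La (Fin.last M))
      linarith

/-- THE FORM OF THE BOX DOMINATES all forms of the class -/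
theorem frm_dom (f : Frm Q l La) (hκ : ∀ k ω j, (f.P k ω j).totalDegree ≤ κ) (h0 : ∀ j, 0 ≤ La j) (h1 : ∀ j, La j < 1)
    [Finite ι] {A : ι → Part S} (hl : l.DMf A) {C : Part S} (hC : (LC.kz C).ev l)
    (hv : (M : ℝ) - ∑ j, La j ≤ volCO (LC.kz C) A Q) {x : ∀ k, FD (S.F k) (Mon M D)}
    (hx : (gaq Q D).AdfK (LC.kz C) A x) : DomJ (bfm f D κ) x := by
  obtain ⟨e, he, he1, hLe⟩ := exists_unit La h1
  obtain ⟨F, hF⟩ : ∃ F : FD0 Q l La, F = ⟨f, 0, e, le_rfl, he, by linarith, h0, hLe, κ, hκ⟩ := ⟨_, rfl⟩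
  subst hF
  have h2 := FD0.volCO_le (F := ⟨f, 0, e, le_rfl, he, by linarith, h0, hLe, κ, hκ⟩) (A := A)
    (B := fun i => l.up e he (A i)) hl (fun i => ⟨i, PLe.refl _⟩) hC (X := f.X.chg l.V e he)
    (FD0.isX_of _ ⟨fun _ => 0, S.Sub_const le_rfl, Eventually.of_forall fun k ω _ j => by
      have h3 : (f.X.chg l.V e he).v k ω j = f.X.v k ω j := rfl
      rw [h3, sub_self, abs_zero, zero_mul]⟩)
  have h3 : (M : ℝ) ≤ volCO (LC.kz (l.up e he C)) (fun i => l.up e he (A i)) (f.X.chg l.V e he) := by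
    have h4 : e * (M - volCO (LC.kz (l.up e he C)) (fun i => l.up e he (A i)) (f.X.chg l.V e he)) ≤ 0 := by
      have h5 : volCO (LC.kz C) A Q ≤ M - ∑ j, La j - e * (M - volCO (LC.kz (l.up e he C))
        (fun i => l.up e he (A i)) (f.X.chg l.V e he)) := h2
      linarith
    by_contra h6
    push Not at h6
    have := mul_pos he (sub_pos.2 h6)
    linarith
  exact box_dom f hκ h0 (fun j => (h1 j).le) (fun i => ⟨i, PLe.refl _⟩) hx.1 (kz_ovl hx.2) (NG.of_volCO h3)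

/-- THE FORM OF THE BOX IS OPTIMAL -/
theorem frm_opt (f : Frm Q l La) (hκ : ∀ k ω j, (f.P k ω j).totalDegree ≤ κ) (h0 : ∀ j, 0 ≤ La j) (h1 : ∀ j, La j < 1)
    [Finite ι] {A : ι → Part S} (hl : l.DMf A) {C : Part S} (hC : (LC.kz C).ev l)
    (hv : (M : ℝ) - ∑ j, La j ≤ volCO (LC.kz C) A Q) (D : ℕ) : (gaq Q D).OptfK (LC.kz C) A (bfm f D κ) := by
  have hb : (gaq Q D).Adf A (bfm f D κ) := bfm_adf f hκ hl h0 (fun j => (h1 j).le) D
  exact ⟨⟨hb, hC⟩, fun y hy => domJ_sc_le _ (frm_dom f hκ h0 h1 hl hC hv hy) hb hy.1⟩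

/-! ### literal labels -/

section lit
variable {X : ∀ k, Setoid (S.F k).Ω} (f : Frm Q (Lab.ofZ X) La)

/-- the literal form of the box -/
theorem bfm_lit (hκ : ∀ k ω j, (f.P k ω j).totalDegree ≤ κ) (h0 : ∀ j, 0 ≤ La j) (h1 : ∀ j, La j ≤ 1) (D : ℕ) :
    ∀ᶠ k in UF, ∀ ω, (S.F k).μ ω ≠ 0 → (zFD (X k) (gfx f D κ k)).g ω = (bfm f D κ k).g ω := by
  filter_upwards [bfm_g f hκ h0 h1 D] with k hk ω hω
  rw [zFD_g (gfx_kn f D κ k)]
  exact (hk ω hω).symm

/-- THE LITERAL FORM OF THE BOX IS OPTIMAL -/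
theorem lit_opt (hκ : ∀ k ω j, (f.P k ω j).totalDegree ≤ κ) (h0 : ∀ j, 0 ≤ La j) (h1 : ∀ j, La j < 1)
    [Finite ι] {A : ι → Part S} (hl : (Lab.ofZ X).DMf A) {C : Part S} (hC : (LC.kz C).ev (Lab.ofZ X))
    (hv : (M : ℝ) - ∑ j, La j ≤ volCO (LC.kz C) A Q) (D : ℕ) :
    (gaq Q D).OptfK (LC.kz C) A (fun k => zFD (X k) (gfx f D κ k)) := by
  obtain ⟨⟨hb, -⟩, ho⟩ := frm_opt f hκ h0 h1 hl hC hv D
  have hg := bfm_lit f hκ h0 (fun j => (h1 j).le) D
  have hg' : ∀ᶠ k in UF, ∀ ω, (S.F k).μ ω ≠ 0 → (zFD (X k) (gfx f D κ k)).g' ω = (bfm f D κ k).g' ω := hg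
  refine ⟨⟨fun η hη => ?_, hC⟩, fun y hy => (ho y hy).trans (le_of_eq ?_)⟩
  · filter_upwards [hb η hη, hg, hg'] with k a b b'
    refine ⟨a.1, fun ω hω => ?_, ?_, ?_⟩
    · have h3 := a.2.1 ω hω
      rw [b ω hω, b' ω hω]
      exact h3
    · refine le_trans (FSp.pb_mono _ ?_) a.2.2.1
      intro ω hω h3
      rw [b ω hω] at h3
      exact h3
    · refine le_trans (FSp.pb_mono _ ?_) a.2.2.2
      intro ω hω h3
      rw [b' ω hω] at h3
      exact h3
  · apply Pool.Agent.Helper31.EC.ul_congr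
    filter_upwards [hg] with k b
    have h3 : (bfm f D κ k).sc = (zFD (X k) (gfx f D κ k)).sc := by
      unfold FD.sc
      refine Finset.sum_congr rfl fun (ω : (S.F k).Ω) _ => ?_
      by_cases hω : (S.F k).μ ω = 0
      · have h4 : (bfm f D κ k).l.T.μ ω = 0 := hω
        have h5 : (zFD (X k) (gfx f D κ k)).l.T.μ ω = 0 := hω
        rw [h4, h5, zero_mul, zero_mul]
      · rw [b ω hω]
        rfl
    rw [h3]

end lit

end

end Pool.Agent.Helper99.MX
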