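import Pool.Agent.Helper99.MX.Frk
import Pool.Agent.Helper29.MX.St2
import Pool.Agent.Helper81.CPY.Zmc
import Pool.Agent.Helper7.GZ.Ab

/-! LEAST CARRIERS (`Mc` of Helper29/MX/St2). `CAN`: the literal label is known to the roundings of the form of the box of
its frame. Exact number at the window: `CAN` for one degree ⇒ `Mc`; conversely `Mc` ⇒ `CAN` for all large degrees. Hence
`Mc` passes to all events of all extensions on which the number is exact. -/

set_option autoImplicit false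

namespace Pool.Agent.Helper99.MX

open Finset Filter Topology Matrix MvPolynomial Pool.Agent.Helper69.RK Pool.Agent.Helper31.EC
open Pool.Agent.Helper31.EC.Sp
open Pool.Agent.Helper40.EL Pool.Agent.Helper89.LX Pool.Agent.Helper3.LF Pool.Agent.Helper84.MT
open Pool.Agent.Helper95.LF Pool.Agent.Helper36.AM Pool.Agent.Helper7.GZ Pool.Agent.Helper26.BXD
open Pool.Agent.Helper95.VIS (rdm rC one_le_rC rX rv rG rv_supp rX_ge rdm_eq_near MinC MinA opt_knows sqrt_pow
  sqrt_tendsto domJ_sc_le)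
open Pool.Agent.Helper33.LIT Pool.Agent.Helper66.NJ Pool.Agent.Helper49.KL
open Pool.Agent.Helper7.RD (volC volCO volC_le_of volCO_le upz)
open Pool.Agent.Helper89.RAK (DomJ)
open Pool.Agent.Helper87.NSL (cndR KnS)
open Pool.Agent.Helper29.MX
open Pool.Agent.Helper81.CPY (frmI ple_im typ_im)

noncomputable section

/-- the partition into the roundings -/
theorem fc_rX {F : FSp} {ι : Type} [Fintype ι] {W : Setoid F.Ω} {G : F.Ω → Matrix ι ι ℝ} (h : Kn1 W G) :
    (fc (rX W G) : FL F) = fc (Setoid.ker fun ω => rdm F.n (G ω)) := by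
  apply le_antisymm
  · apply fc_le
    intro ω ω' m1 m2 _ e
    have e' : rdm F.n (G ω) = rdm F.n (G ω') := e
    show rv W G ω = rv W G ω'
    rw [rv_supp h m1, rv_supp h m2, e']
  · apply fc_le
    intro ω ω' m1 m2 _ e
    have e' : rv W G ω = rv W G ω' := e
    rw [rv_supp h m1, rv_supp h m2] at e'
    exact e'

section can
variable {S : Sp} {M D : ℕ} {Q : S.VV M} {X : ∀ k, Setoid (S.F k).Ω} {La : Fin M → ℝ} {κ : ℕ}

/-- the literal label is known to the roundings of the form of the box of its frame -/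
def CAN (f : Frm Q (Lab.ofZ X) La) (D κ : ℕ) : Prop :=
  Nul S fun k => h (fc (X k)) (fc (Setoid.ker fun ω : (S.F k).Ω => rdm (S.F k).n (gfx f D κ k ω)))

theorem can_iff {f : Frm Q (Lab.ofZ X) La} : CAN f D κ ↔ Nul S fun k => h (fc (X k)) (fc (rX (X k) (gfx f D κ k))) := by
  unfold CAN
  have e : (fun k => h (fc (X k)) (fc (rX (X k) (gfx f D κ k)))) = fun k => h (fc (X k))
      (fc (Setoid.ker fun ω : (S.F k).Ω => rdm (S.F k).n (gfx f D κ k ω))) := by
    funext k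
    rw [fc_rX (gfx_kn f D κ k)]
  rw [e]

end can

variable {S T : Sp} {N D : ℕ} {E : ℕ → ℕ} {ι : Type} {s : MSys S N E ι} {R : Rsl S} {w : Fin N → ℝ} {c : ℝ} {κ : ℕ}

/-- degrees of frames with weights, `c = 0` is allowed -/
theorem frm_degw {Q : S.VV N} {l : Lab S} (f : Frm Q l fun j => w j * c) (h0 : 0 ≤ c) (hw : ∀ j, 1 ≤ w j)
    (hκ : ∀ j, w j ≤ κ) (k : ℕ) (ω : (l.sp.F k).Ω) (j : Fin N) : (f.P k ω j).totalDegree ≤ κ := by
  rcases h0.eq_or_lt with rfl | hc
  · have h1 : (f.P k ω j).support ⊆ {0} := by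
      intro a ha
      rw [Finset.mem_singleton]
      by_contra h2
      have h3 := f.red k ω j a ha h2
      simp at h3
    have h2 : (f.P k ω j).totalDegree = 0 := by
      rw [totalDegree_eq_zero_iff]
      intro a ha i
      rw [Finset.mem_singleton.1 (h1 ha)]
      rfl
    rw [h2]
    exact Nat.zero_le _
  · exact Pool.Agent.Helper7.GZ.frm_deg f hc hw hκ k ω j

section
variable [Finite ι] (hw : ∀ j, 1 ≤ w j) (hκ : ∀ j, w j ≤ κ) (h0 : 0 ≤ c) (h1 : ∀ j, w j * c < 1)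
  (hT : (N : ℝ) - (∑ j, w j) * c ≤ volKO s R c)

theorem wnn {w : Fin N → ℝ} (hw : ∀ j, 1 ≤ w j) (h0 : 0 ≤ c) (j : Fin N) : 0 ≤ w j * c :=
  mul_nonneg (zero_le_one.trans (hw j)) h0

include hw hκ h0 h1 hT

/-- [FCAR] K-LABELS WITH A FRAME CARRY OPTIMAL FORMS of all degrees -/
theorem fcar {l : Lab S} (hl : KLb s R c l) (f : Frm s.Q l fun j => w j * c) (D : ℕ) :
    KOp s R D c (bfm f D κ) := by
  have e1 : ∑ j, w j * c = (∑ j, w j) * c := by rw [Finset.sum_mul]
  refine frm_opt f (frm_degw f h0 hw hκ) (wnn hw h0) h1 hl.1 hl.2 ?_ D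
  rw [e1, ← volKO_eq]
  exact hT

/-- the literal form of the box is optimal -/
theorem fcar_lit {X : Rsl S} (hl : KLb s R c (Lab.ofZ X)) (f : Frm s.Q (Lab.ofZ X) fun j => w j * c) (D : ℕ) :
    KOp s R D c (fun k => zFD (X k) (gfx f D κ k)) := by
  have e1 : ∑ j, w j * c = (∑ j, w j) * c := by rw [Finset.sum_mul]
  refine lit_opt f (frm_degw f h0 hw hκ) (wnn hw h0) h1 hl.1 hl.2 ?_ D
  rw [e1, ← volKO_eq]
  exact hT

/-- a label which carries an optimal form knows every literal label with `CAN` -/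
theorem can_known {X : Rsl S} (hl : KLb s R c (Lab.ofZ X)) (f : Frm s.Q (Lab.ofZ X) fun j => w j * c)
    (hc : CAN f D κ) {y : ∀ k, FD (S.F k) (Mon N D)} (hy : KOp s R D c y) :
    Nul S fun k => h ((y k).l.p.map (fc (X k))) ((y k).l.v) := by
  have h4 := opt_knows (gaq s.Q D) (Eventually.of_forall fun k => gfx_kn f D κ k)
    (fcar_lit hw hκ h0 h1 hT hl f D) hy
  refine (hc.add h4).of_le (Eventually.of_forall fun k => h_nonneg _ _) (Eventually.of_forall fun k => ?_)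
  have h5 := h_triangle' ((y k).l.p.map (fc (X k)))
    ((y k).l.p.map (fc (Setoid.ker fun ω : (S.F k).Ω => rdm (S.F k).n (gfx f D κ k ω)))) ((y k).l.v)
  rw [(y k).l.p.h_map] at h5
  exact h5

theorem can_known' {X : Rsl S} (hl : KLb s R c (Lab.ofZ X)) (f : Frm s.Q (Lab.ofZ X) fun j => w j * c)
    (hc : CAN f D κ) {y : ∀ k, FD (S.F k) (Mon N D)} (hy : KOp s R D c y) {l : Lab S} (e : ∀ k, (y k).l = l k) :
    Nul S fun k => h ((l k).p.map (fc (X k))) ((l k).v) := by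
  have h2 := can_known hw hκ h0 h1 hT hl f hc hy
  have e1 : (fun k => (y k).l) = l := funext e
  subst e1
  exact h2

/-- [MCC] -/
theorem mcc {X : Rsl S} (hlit : ∀ᶠ k in UF, R k ⊓ (S.F k).Z ≤ X k) (hl : KLb s R c (Lab.ofZ X))
    (f : Frm s.Q (Lab.ofZ X) fun j => w j * c) (hc : CAN f D κ) : Mc s R w c X where
  lit := hlit
  kl := hl
  fr := ⟨f⟩
  min := by
    rintro l hkl ⟨f'⟩
    exact can_known' hw hκ h0 h1 hT hl f hc (fcar hw hκ h0 h1 hT hkl f' D) fun k => bfm_l f' D κ k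

end

/-! ### from `Mc` to `CAN` -/

theorem klb_coarse [Finite ι] {X Y : Rsl S} (hlit : ∀ᶠ k in UF, R k ⊓ (S.F k).Z ≤ X k)
    (hl : KLb s R c (Lab.ofZ X)) (hY : ∀ᶠ k in UF, X k ⊓ (S.F k).Z ≤ Y k) : KLb s R c (Lab.ofZ Y) := by
  refine ⟨(Lab.ofZ_DMf Y).mpr fun i => ?_, kz_ofZ ?_⟩
  · have h2 := (Lab.ofZ_DMf X).mp hl.1 i
    refine h2.of_le (Eventually.of_forall fun k => h_nonneg _ _) ?_
    filter_upwards [hY] with k hk
    exact h_mono (fc_le fun _ _ _ _ a b => hk ⟨b, a⟩)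
  · filter_upwards [hlit, hY] with k a b
    exact (le_inf a inf_le_right).trans b

/-- [MCN] -/
theorem mcn [Finite ι] (hw : ∀ j, 1 ≤ w j) (hκ : ∀ j, w j ≤ κ) (h0 : 0 ≤ c) (h1 : ∀ j, w j * c ≤ 1) {X : Rsl S}
    (hX : Mc s R w c X) (f : Frm s.Q (Lab.ofZ X) fun j => w j * c) (hD : (κ + 1) ^ N ≤ D) : CAN f D κ := by
  rw [can_iff]
  have h2 := hX.min (Lab.ofZ fun k => rX (X k) (gfx f D κ k))
    (klb_coarse hX.lit hX.kl (Eventually.of_forall fun k => rX_ge _ _))
    (exists_frx f (frm_degw f h0 hw hκ) (wnn hw h0) h1 hD)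
  exact h2

/-! ### uniqueness; the minimal carriers of helper95 -/

/-- two least carriers of the same window know each other -/
theorem mc_uniq {X X' : Rsl S} (hX : Mc s R w c X) (hX' : Mc s R w c X') : Nul S fun k => h (fc (X k)) (fc (X' k)) :=
  hX.min (Lab.ofZ X') hX'.kl hX'.fr

/-- least carriers do not depend on the weights of the frame if the sum of the exponents is exact: see `mc_minC` -/
theorem mc_nul_left {X X' : Rsl S} (hX : Mc s R w c X) {B : Part S} (hB : Nul S fun k => h (fc (X' k)) (B k))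
    (hX' : Mc s R w c X') : Nul S fun k => h (fc (X k)) (B k) := by
  refine ((mc_uniq hX hX').add hB).of_le (Eventually.of_forall fun k => h_nonneg _ _) (Eventually.of_forall fun k => ?_)
  exact h_triangle' (fc (X k)) (fc (X' k)) (B k)

section
variable [Finite ι] (hw : ∀ j, 1 ≤ w j) (hκ : ∀ j, w j ≤ κ) (h0 : 0 ≤ c) (h1 : ∀ j, w j * c < 1)
  (hT : (N : ℝ) - (∑ j, w j) * c ≤ volKO s R c)

include hw hκ h0 h1 hT

/-- the least carrier is a minimal carrier of helper95 for every large degree -/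
theorem mc_minC {X : Rsl S} (hX : Mc s R w c X) (hD : (κ + 1) ^ N ≤ D) : MinC (gaq s.Q D) R (cndR s R c) X := by
  obtain ⟨f⟩ := hX.fr
  exact ⟨hX.lit, gfx f D κ, Eventually.of_forall fun k => gfx_kn f D κ k, fcar_lit hw hκ h0 h1 hT hX.kl f D,
    mcn hw hκ h0 (fun j => (h1 j).le) hX f hD⟩

/-- and for all degrees together -/
theorem mc_minA {X : Rsl S} (hX : Mc s R w c X) : MinA (fun D => gaq s.Q D) R (cndR s R c) X where
  lit := hX.lit
  dmf := hX.kl.1
  car := fun D => by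
    obtain ⟨f⟩ := hX.fr
    exact ⟨gfx f D κ, Eventually.of_forall fun k => gfx_kn f D κ k, fcar_lit hw hκ h0 h1 hT hX.kl f D⟩
  min := fun l hl => by
    obtain ⟨X', h2, h3⟩ := hl ((κ + 1) ^ N)
    have h4 := (mc_minC hw hκ h0 h1 hT hX le_rfl).uniq _ h2
    refine (h4.add h3).of_le (Eventually.of_forall fun k => h_nonneg _ _) (Eventually.of_forall fun k => ?_)
    have h5 := h_triangle' ((l k).p.map (fc (X k))) ((l k).p.map (fc (X' k))) ((l k).v)
    rw [(l k).p.h_map] at h5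
    exact h5

/-- [MCK] a K-label which carries an optimal form of ONE large degree knows the least carrier -/
theorem mck {X : Rsl S} (hX : Mc s R w c X) (hD : (κ + 1) ^ N ≤ D) {y : ∀ k, FD (S.F k) (Mon N D)}
    (hy : KOp s R D c y) {l : Lab S} (e : ∀ k, (y k).l = l k) :
    Nul S fun k => h ((l k).p.map (fc (X k))) ((l k).v) := by
  obtain ⟨f⟩ := hX.fr
  exact can_known' hw hκ h0 h1 hT hX.kl f (mcn hw hκ h0 (fun j => (h1 j).le) hX f hD) hy e

/-- a minimal carrier of one degree with a frame is a least carrier -/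
theorem minC_mc {X : Rsl S} (hX : MinC (gaq s.Q D) R (cndR s R c) X)
    (hf : Nonempty (Frm s.Q (Lab.ofZ X) fun j => w j * c)) : Mc s R w c X where
  lit := hX.lit
  kl := ⟨hX.dmf, kz_ofZ hX.lit⟩
  fr := hf
  min := by
    rintro l hkl ⟨f'⟩
    have h2 := hX.min _ (fcar hw hκ h0 h1 hT hkl f' D)
    have e1 : (fun k => (bfm f' D κ k).l) = l := funext fun k => bfm_l f' D κ k
    exact h2

/-- a minimal carrier of all degrees with a frame is a least carrier -/
theorem minA_mc {X : Rsl S} (hX : MinA (fun D => gaq s.Q D) R (cndR s R c) X)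
    (hf : Nonempty (Frm s.Q (Lab.ofZ X) fun j => w j * c)) : Mc s R w c X where
  lit := hX.lit
  kl := ⟨hX.dmf, kz_ofZ hX.lit⟩
  fr := hf
  min := by
    rintro l hkl ⟨f'⟩
    exact hX.knows fun D => ⟨bfm f' D κ, fun k => bfm_l f' D κ k, fcar hw hκ h0 h1 hT hkl f' D⟩

end

/-! ### events of extensions -/

section im
variable (p : Pj T S) (A : ∀ k, (T.F k).Ω → Prop) (hA : 0 < ul (T.pr A))

theorem klb_im_lit [Finite ι] {X : Rsl S} (hlit : ∀ᶠ k in UF, R k ⊓ (S.F k).Z ≤ X k) (hl : KLb s R c (Lab.ofZ X)) :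
    KLb (s.im p A hA) R c (Lab.ofZ (S := Sp.im p A) X) := by
  refine ⟨(Lab.ofZ_DMf (S := Sp.im p A) X).mpr fun i => ?_, kz_ofZ (S := Sp.im p A) hlit⟩
  have h2 := ple_im p A hA ((Lab.ofZ_DMf X).mp hl.1 i)
  rcases i with _ | i
  · exact h2
  · exact h2

include hA in
/-- `CAN` on events -/
theorem can_im {Q : S.VV N} {X : Rsl S} {La : Fin N → ℝ} (f : Frm Q (Lab.ofZ X) La) (hc : CAN f D κ) :
    CAN (S := Sp.im p A) (frmI p A f) D κ := by
  have h2 := ple_im p A hA (X := fun k => fc (X k))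
    (Y := fun k => fc (Setoid.ker fun ω : (S.F k).Ω => rdm (S.F k).n (gfx f D κ k ω))) hc
  have h3 : Tendsto (fun k => h (fc (F := (Sp.im p A).F k) (X k)) (fc (F := (Sp.im p A).F k)
      (Setoid.ker fun ω : (S.F k).Ω => rdm (S.F k).n (gfx f D κ k ω))) / ((Sp.im p A).F k).n) UF (𝓝 0) := h2
  refine h3.congr' ?_
  filter_upwards [fP_ev f, fP_ev (frmI p A f)] with k a b
  have e : ∀ ω : (S.F k).Ω, gfx (S := Sp.im p A) (frmI p A f) D κ k ω = gfx f D κ k ω := by
    intro ω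
    have e2 : (frmI p A f).P k ω = f.P k ω := rfl
    have e3 : scl La (Sp.im p A) k = scl La S k := rfl
    unfold gfx gfm
    rw [a, b, e2, e3]
  have en : ((Sp.im p A).F k).n = (S.F k).n := rfl
  have e0 : (fun ω : (S.F k).Ω => rdm (S.F k).n (gfx f D κ k ω)) = fun ω : (S.F k).Ω =>
      rdm ((Sp.im p A).F k).n (gfx (S := Sp.im p A) (frmI p A f) D κ k ω) := funext fun ω => by rw [e ω, en]
  exact congrArg (fun g : (S.F k).Ω → Matrix (Mon N D) (Mon N D) ℝ => h (fc (F := (Sp.im p A).F k) (X k))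
    (fc (F := (Sp.im p A).F k) (Setoid.ker g)) / ((Sp.im p A).F k).n) e0

/-- [MCI] LEAST CARRIERS ON EVENTS -/
theorem mci [Finite ι] (hw : ∀ j, 1 ≤ w j) (h0 : 0 ≤ c) (h1 : ∀ j, w j * c < 1)
    (hT : (N : ℝ) - (∑ j, w j) * c ≤ volKO (s.im p A hA) R c) {X : Rsl S} (hX : Mc s R w c X) :
    Mc (s.im p A hA) R w c X := by
  obtain ⟨κ, hκ⟩ : ∃ κ : ℕ, ∀ j, w j ≤ κ := by
    obtain ⟨κ, hκ⟩ := exists_nat_ge (∑ j, w j)
    exact ⟨κ, fun j => (Finset.single_le_sum (fun i _ => zero_le_one.trans (hw i)) (Finset.mem_univ j)).trans hκ⟩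
  obtain ⟨f⟩ := hX.fr
  exact mcc (S := Sp.im p A) (s := s.im p A hA) hw hκ h0 h1 hT hX.lit (klb_im_lit p A hA hX.lit hX.kl) (frmI p A f)
    (can_im p A hA f (mcn hw hκ h0 (fun j => (h1 j).le) hX f le_rfl))

end im

end

end Pool.Agent.Helper99.MX
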