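import Pool.Agent.Helper26.BXD.Use
import Pool.Agent.Helper95.VIS.Ma
import Pool.Agent.Helper7.RD.Pf

/-! FRAMES OVER THE ROUNDING OF THE FORM OF THE BOX. Let `f` be a frame over a literal label `X` and `Y` the partition
into the roundings of the form of the box. Then there is a frame over `Y` with the same exponents: the chart of a
representative of the class. -/

set_option autoImplicit false

namespace Pool.Agent.Helper99.MX

open Finset Filter Topology Matrix MvPolynomial Pool.Agent.Helper69.RK Pool.Agent.Helper31.EC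
open Pool.Agent.Helper31.EC.Sp
open Pool.Agent.Helper40.EL Pool.Agent.Helper89.LX Pool.Agent.Helper3.LF Pool.Agent.Helper84.MT
open Pool.Agent.Helper95.LF Pool.Agent.Helper36.AM Pool.Agent.Helper7.GZ Pool.Agent.Helper26.BXD
open Pool.Agent.Helper95.VIS (rdm rC one_le_rC rX rv rG rv_supp rX_ge rdm_eq_near MinC opt_knows sqrt_pow sqrt_tendsto)
open Pool.Agent.Helper33.LIT Pool.Agent.Helper66.NJ

noncomputable section

/-! ### the rows are dominated by the form of the box -/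

section stat
variable {M D DD : ℕ} {P : Fin M → MvPolynomial (Fin M) ℝ}

/-- the inverse at the values of the chart -/
theorem inv_left (tri : ∀ j, ∀ i ∈ (P j).vars, i < j) (U : Fin M → ℝ) : ∀ (n : ℕ) (j : Fin M), (j : ℕ) < n →
    eval (fun i => eval U (P i) + U i) (inv P j) = U j := by
  intro n
  induction n with
  | zero => intro j hj; omega
  | succ n ih =>
    intro j hj
    rw [inv_eval tri]
    have h1 : eval (fun i => eval (fun i => eval U (P i) + U i) (inv P i)) (P j) = eval U (P j) := by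
      apply Pool.Agent.Helper36.AM.eval_congr
      intro i hi
      exact ih i (by
        have h2 : (i : ℕ) < j := tri j i hi
        omega)
    rw [h1]
    ring

/-- the rows of the inverse chart with scales -/
def irow (P : Fin M → MvPolynomial (Fin M) ℝ) (d : Fin M → ℝ) (j : Fin M) : MvPolynomial (Fin M) ℝ :=
  C (d j)⁻¹ * inv P j

theorem irow_chp (tri : ∀ j, ∀ i ∈ (P j).vars, i < j) (d : Fin M → ℝ) (hd : ∀ i, d i ≠ 0) (x : Fin M → ℝ) (j : Fin M) :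
    eval (fun i => eval x (chp P d i)) (irow P d j) = x j := by
  unfold irow
  rw [map_mul, eval_C]
  have h1 : (fun i => eval x (chp P d i)) = fun i => eval (fun i => d i * x i) (P i) + d i * x i := by
    funext i
    exact chp_eval P d x i
  rw [h1, inv_left tri (fun i => d i * x i) M j j.2, inv_mul_cancel_left₀ (hd j)]

/-- THE ROWS ARE DOMINATED BY THE FORM OF THE BOX -/
theorem box_row (tri : ∀ j, ∀ i ∈ (P j).vars, i < j) (d : Fin M → ℝ) (hd : ∀ i, d i ≠ 0) {p : ℕ}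
    (hP : ∀ i, (P i).totalDegree ≤ p) (hDD : D * (p + 1) ≤ DD) (j : Fin M)
    (hr : (irow P d j).totalDegree ≤ D) (v : Mon M D → ℝ) :
    (cfv D (irow P d j) ⬝ᵥ v) ^ 2 ≤ Fintype.card (Mon M DD) * (v ⬝ᵥ (gch D DD P d *ᵥ v)) := by
  obtain ⟨c, hc⟩ : ∃ c, c = cfv D (irow P d j) := ⟨_, rfl⟩
  obtain ⟨T, hT⟩ : ∃ T, T = Tm (D := D) DD (chp P d) := ⟨_, rfl⟩
  have hinj : ∀ c, T *ᵥ c = 0 → c = 0 := by
    rw [hT]
    exact Tm_inj tri d hd hP hDD
  have h1 : pol (T *ᵥ c) = X j := by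
    apply MvPolynomial.funext
    intro x
    rw [Pool.Agent.Helper3.LF.eval_pol, eval_X]
    have h2 : (T *ᵥ c) ⬝ᵥ vv x = c ⬝ᵥ (T.transpose *ᵥ vv x) := by
      rw [Matrix.mulVec_transpose, dotProduct_comm, Matrix.dotProduct_mulVec, dotProduct_comm]
    rw [h2, hT, Tm_vv (D := D) (chp P d) (fun i => chp_deg P d hP i) hDD x, ← Pool.Agent.Helper3.LF.eval_pol, hc,
      pol_cfv _ hr]
    exact irow_chp tri d hd x j
  have h3 : (T *ᵥ c) ⬝ᵥ (T *ᵥ c) ≤ Fintype.card (Mon M DD) := by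
    unfold dotProduct
    refine (Finset.sum_le_card_nsmul _ _ 1 fun a _ => ?_).trans (le_of_eq ?_)
    · have h4 : (T *ᵥ c) a = coeff a.ex (X j : MvPolynomial (Fin M) ℝ) := by rw [← h1, coeff_pol]
      rw [h4, coeff_X]
      split_ifs <;> norm_num
    · rw [nsmul_eq_mul, mul_one, Finset.card_univ]
  obtain ⟨w, hw⟩ : ∃ w, w = gri T *ᵥ v := ⟨_, rfl⟩
  have h5 : c ⬝ᵥ v = (T *ᵥ c) ⬝ᵥ (T *ᵥ w) := by rw [← gr_bil, hw, gr_inv T hinj]
  have h6 : (T *ᵥ w) ⬝ᵥ (T *ᵥ w) = v ⬝ᵥ (gri T *ᵥ v) := by rw [gri_qf T hinj, ← hw]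
  have h7 : v ⬝ᵥ (gri T *ᵥ v) ≤ v ⬝ᵥ (gch D DD P d *ᵥ v) := by
    unfold gch
    rw [← hT, dv_add, Matrix.one_mulVec]
    have := self_nonneg' v
    linarith
  have h8 : ((T *ᵥ c) ⬝ᵥ (T *ᵥ w)) ^ 2 ≤ ((T *ᵥ c) ⬝ᵥ (T *ᵥ c)) * ((T *ᵥ w) ⬝ᵥ (T *ᵥ w)) := by
    unfold dotProduct
    have h9 := Finset.sum_mul_sq_le_sq_mul_sq (Finset.univ : Finset (Mon M DD)) (T *ᵥ c) (T *ᵥ w)
    refine h9.trans (le_of_eq ?_)
    congr 1 <;> exact Finset.sum_congr rfl fun a _ => pow_two _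
  rw [← hc, h5]
  refine h8.trans ?_
  rw [h6]
  have h10 : 0 ≤ v ⬝ᵥ (gri T *ᵥ v) := gri_nonneg _ hinj v
  exact mul_le_mul h3 h7 h10 (Nat.cast_nonneg _)

end stat

/-! ### representatives -/

theorem Sub_sqrt (S : Sp) {c : ℝ} (hc : 0 ≤ c) : S.Sub (fun k => Real.exp (c * (1 + Real.sqrt (S.F k).n))) := by
  refine ⟨Eventually.of_forall fun _ => (Real.exp_pos _).le, ?_⟩
  have hl : 0 < Real.log 2 := Real.log_pos (by norm_num)
  have h1 := (S.div_n_tendsto (Real.logb 2 3)).add ((sqrt_tendsto S c).mul_const (Real.log 2)⁻¹)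
  rw [zero_mul, add_zero] at h1
  refine tendsto_of_tendsto_of_tendsto_of_le_of_le' tendsto_const_nhds h1 (Eventually.of_forall fun k => ?_)
    (Eventually.of_forall fun k => ?_)
  · exact div_nonneg (Real.logb_nonneg (by norm_num) (by
      have := Real.exp_pos (c * (1 + Real.sqrt (S.F k).n))
      linarith)) (S.F k).pos.le
  · have hn := (S.F k).pos
    have h2 : (1 : ℝ) ≤ Real.exp (c * (1 + Real.sqrt (S.F k).n)) := Real.one_le_exp (by positivity)
    have h3 : Real.logb 2 (Real.exp (c * (1 + Real.sqrt (S.F k).n)) + 2) ≤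
        Real.logb 2 (3 * Real.exp (c * (1 + Real.sqrt (S.F k).n))) :=
      Real.logb_le_logb_of_le (by norm_num) (by positivity) (by linarith)
    have h4 : Real.logb 2 (Real.exp (c * (1 + Real.sqrt (S.F k).n))) = c * (1 + Real.sqrt (S.F k).n) / Real.log 2 := by
      rw [Real.logb, Real.log_exp]
    rw [Real.logb_mul (by norm_num) (Real.exp_pos _).ne', h4] at h3
    refine (div_le_div_of_nonneg_right h3 hn.le).trans (le_of_eq ?_)
    rw [add_div, div_eq_mul_inv _ (Real.log 2)]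
    ring

section frx
variable {S : Sp} {M D : ℕ} {Q : S.VV M} {X : ∀ k, Setoid (S.F k).Ω} {La : Fin M → ℝ} (f : Frm Q (Lab.ofZ X) La)
  {κ : ℕ}

/-- the form of the box over a literal label, a function on the space -/
def gfx (D κ : ℕ) (k : ℕ) (ω : (S.F k).Ω) : Matrix (Mon M D) (Mon M D) ℝ := gfm f D κ k ω

theorem gfx_kn (D κ : ℕ) (k : ℕ) : Kn1 (X k) (gfx f D κ k) := fun ω ω' h h' hW hZ =>
  gfm_meas f D κ k ω ω' h h' hW hZ

/-- the representative of the class of the rounding -/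
def rpt (D κ : ℕ) (k : ℕ) (ω : (S.F k).Ω) : (S.F k).Ω :=
  @Classical.epsilon _ ⟨ω⟩ (fun ω' => (S.F k).μ ω' ≠ 0 ∧ rv (X k) (gfx f D κ k) ω' = rv (X k) (gfx f D κ k) ω)

theorem rpt_spec (D κ : ℕ) (k : ℕ) {ω : (S.F k).Ω} (hω : (S.F k).μ ω ≠ 0) : (S.F k).μ (rpt f D κ k ω) ≠ 0 ∧
    rv (X k) (gfx f D κ k) (rpt f D κ k ω) = rv (X k) (gfx f D κ k) ω :=
  @Classical.epsilon_spec _ (fun ω' => (S.F k).μ ω' ≠ 0 ∧ rv (X k) (gfx f D κ k) ω' = rv (X k) (gfx f D κ k) ω)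
    ⟨ω, hω, rfl⟩

theorem rpt_eq (D κ : ℕ) (k : ℕ) {ω ω' : (S.F k).Ω} (h : rv (X k) (gfx f D κ k) ω = rv (X k) (gfx f D κ k) ω') :
    rpt f D κ k ω = rpt f D κ k ω' := by
  unfold rpt
  rw [h]

/-- FRAMES OVER THE ROUNDING -/
theorem exists_frx (hκ : ∀ k ω j, (f.P k ω j).totalDegree ≤ κ) (h0 : ∀ i, 0 ≤ La i) (h1 : ∀ i, La i ≤ 1)
    (hD : (κ + 1) ^ M ≤ D) : Nonempty (Frm Q (Lab.ofZ fun k => rX (X k) (gfx f D κ k)) La) := by
  obtain ⟨K, hK, hφ⟩ := gfm_phi f hκ h0 h1 D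
  obtain ⟨Kb, hKb, hb⟩ := f.bd
  obtain ⟨c, hc⟩ : ∃ c, c = 2 * rC (Mon M D) := ⟨_, rfl⟩
  have hc0 : 0 ≤ c := by
    have := one_le_rC (Mon M D)
    rw [hc]
    linarith
  have hB : ∀ᶠ k in UF, ∀ ω : (S.F k).Ω, (S.F k).μ ω ≠ 0 → ∀ j,
      |eval (Q.v k ω) (irow (f.P k (rpt f D κ k ω)) (scl La S k) j)| ≤
        Fintype.card (Mon M (D * (κ + 1))) * (Real.exp (c * (1 + Real.sqrt (S.F k).n)) * K k) + 1 := by
    filter_upwards [hφ, fP_ev f] with k a b ω hω j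
    obtain ⟨s1, s2⟩ := rpt_spec f D κ k hω
    obtain ⟨ω', hω'⟩ : ∃ ω', ω' = rpt f D κ k ω := ⟨_, rfl⟩
    rw [← hω'] at s1 s2 ⊢
    have hkn := gfx_kn f D κ k
    rw [rv_supp hkn s1, rv_supp hkn hω] at s2
    obtain ⟨g1, g2⟩ := gfm_ge f hκ D k ω
    obtain ⟨g3, g4⟩ := gfm_ge f hκ D k ω'
    have p1 : PdM (gfx f D κ k ω) := pdM_of_one_le g1 g2
    have p2 : PdM (gfx f D κ k ω') := pdM_of_one_le g3 g4
    have h2 := (rdm_eq_near p2 p1 s2).1 (vv (Q.v k ω))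
    have h3 := vv_le_phi (r := S.dl 1 k) p1.nonneg (Q.v k ω)
    have h4 : phi (S.dl 1 k) (gfx f D κ k ω) (Q.v k ω) ≤ K k := a ω hω
    have e1 : gfx f D κ k ω' = gch D (D * (κ + 1)) (f.P k ω') (scl La S k) := by
      show gch D (D * (κ + 1)) (fP f k ω') (scl La S k) = _
      rw [b]
    have hdeg : (irow (f.P k ω') (scl La S k) j).totalDegree ≤ D := by
      unfold irow
      refine (MvPolynomial.totalDegree_mul _ _).trans ?_
      rw [MvPolynomial.totalDegree_C, zero_add]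
      exact (inv_deg (fun j => hκ k ω' j) j).trans hD
    have h5 := box_row (D := D) (DD := D * (κ + 1)) (f.tri k ω') (scl La S k) (scl_ne k) (hκ k ω') le_rfl j hdeg
      (vv (Q.v k ω))
    rw [← Pool.Agent.Helper3.LF.eval_pol, pol_cfv _ hdeg, ← e1] at h5
    have h6 : vv (Q.v k ω) ⬝ᵥ (gfx f D κ k ω' *ᵥ vv (Q.v k ω)) ≤ Real.exp (c * (1 + Real.sqrt (S.F k).n)) * K k := by
      rw [hc]
      exact h2.trans (mul_le_mul_of_nonneg_left (h3.trans h4) (Real.exp_pos _).le)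
    have h7 := h5.trans (mul_le_mul_of_nonneg_left h6 (Nat.cast_nonneg _))
    have h8 : |eval (Q.v k ω) (irow (f.P k ω') (scl La S k) j)| ^ 2 ≤
        Fintype.card (Mon M (D * (κ + 1))) * (Real.exp (c * (1 + Real.sqrt (S.F k).n)) * K k) := by
      rw [sq_abs]
      exact h7
    nlinarith [sq_nonneg (|eval (Q.v k ω) (irow (f.P k ω') (scl La S k) j)| - 1),
      abs_nonneg (eval (Q.v k ω) (irow (f.P k ω') (scl La S k) j))]
  refine ⟨⟨⟨fun k ω j => eval (Q.v k ω) (irow (f.P k (rpt f D κ k ω)) (scl La S k) j), ?_⟩,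
    fun k ω => f.P k (rpt f D κ k ω), fun k ω j => f.tri k _ j, fun k ω j => f.red k _ j, ?_, ?_, ?_⟩⟩
  · refine ⟨_, (sp_Sub (Lab.ofZ fun k => rX (X k) (gfx f D κ k))).mpr (((S.Sub_const (Nat.cast_nonneg
      (Fintype.card (Mon M (D * (κ + 1)))))).mul ((Sub_sqrt S (c := c) hc0).mul hK)).add (S.Sub_const zero_le_one)), hB⟩
  · refine Eventually.of_forall fun k ω ω' _ _ _ hV => ?_
    have h2 : rv (X k) (gfx f D κ k) ω = rv (X k) (gfx f D κ k) ω' := hV
    show f.P k (rpt f D κ k ω) = f.P k (rpt f D κ k ω')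
    rw [rpt_eq f D κ k h2]
  · refine ⟨Kb, hKb, ?_⟩
    filter_upwards [hb] with k hk ω hω j a
    exact hk _ (rpt_spec f D κ k hω).1 j a
  · refine ⟨fun _ => 0, S.Sub_const le_rfl, Eventually.of_forall fun k ω hω j => ?_⟩
    have h2 := chp_inv (f.tri k (rpt f D κ k ω)) (scl La S k) (scl_ne k) (Q.v k ω) j
    rw [chp_eval] at h2
    have h3 : (fun i => scl La S k i * ((scl La S k i)⁻¹ * eval (Q.v k ω) (inv (f.P k (rpt f D κ k ω)) i))) =
        fun i => S.dl (La i) k * eval (Q.v k ω) (irow (f.P k (rpt f D κ k ω)) (scl La S k) i) := by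
      funext i
      unfold irow
      rw [map_mul, eval_C]
      rfl
    rw [h3] at h2
    have h4 : scl La S k j * ((scl La S k j)⁻¹ * eval (Q.v k ω) (inv (f.P k (rpt f D κ k ω)) j)) =
        S.dl (La j) k * eval (Q.v k ω) (irow (f.P k (rpt f D κ k ω)) (scl La S k) j) := congrFun h3 j
    rw [h4] at h2
    rw [zero_mul]
    have h5 : Q.v k ω j - (eval (fun i => S.dl (La i) k * eval (Q.v k ω) (irow (f.P k (rpt f D κ k ω)) (scl La S k) i))
        (f.P k (rpt f D κ k ω) j) + S.dl (La j) k * eval (Q.v k ω) (irow (f.P k (rpt f D κ k ω)) (scl La S k) j)) = 0 := by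
      rw [h2]
      ring
    have h6 : (((Lab.ofZ fun k => rX (X k) (gfx f D κ k)).pj.vv Q).v k ω j) = Q.v k ω j := rfl
    rw [h6, h5, abs_zero]

end frx

end

end Pool.Agent.Helper99.MX
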