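import Pool.Agent.Helper99.MX.Swp
import Pool.Agent.Helper48.ROK.Mx

/-! (F9) with the fullness of the prefixes from the structure theorem in the smaller dimensions. -/

set_option autoImplicit false

namespace Pool.Agent.Helper99.MX

open Finset Filter Topology Matrix Pool.Agent.Helper69.RK Pool.Agent.Helper31.EC Pool.Agent.Helper31.EC.Sp
open Pool.Agent.Helper40.EL Pool.Agent.Helper89.LX Pool.Agent.Helper3.LF Pool.Agent.Helper84.MT
open Pool.Agent.Helper36.AM Pool.Agent.Helper84.KR Pool.Agent.Helper89.RAK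
open Pool.Agent.Helper7.RD (volC volCO volC_eq volC_le_of volCO_le volCO_le_M volCO_mono adfK_mono optK_dom volCO_bdd)
open Pool.Agent.Helper18.PRM Pool.Agent.Helper18.SRT
open Pool.Agent.Helper87.NSL (cndR KnS)
open Pool.Agent.Helper48.ROK
open Pool.Agent.Helper29.MX

noncomputable section

variable {S : Sp} {M N g : ℕ} {ι : Type}

/-- PREFIXES ARE FULL over every K-label -/
theorem pfx_full [Finite ι] (hst : ∀ m < N, STu m) {s : MSys S N (lin g) ι} {R : Rsl S} (hR : Pt s R) {c : ℝ}
    (h0 : 0 ≤ c) (h1 : c < 1) {j : ℕ} (hj : j < N) {l : Lab S} (hl : KLb s R c l) :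
    volP s R c hj.le ≤ H (up1 l ((pfx s.Q hj.le).dg 1)) := by
  obtain ⟨D, hD, h⟩ := exists_stm hst g
  have h2 := num_lowP (R := R) hj.le (h D le_rfl j hj) hR hD h0 h1 (l := l) hl
  exact (volCO_le D).trans h2

/-- **SWAP OF PREFIXES** for two resolutions `R ≤ R'` of the point, the structure theorem holds in the smaller
dimensions -/
theorem swp_mx [Finite ι] (hst : ∀ m < N, STu m) {s : MSys S N (lin g) ι} {R R' : Rsl S} (h : ∀ᶠ k in UF, R k ≤ R' k)
    (hR : Pt s R') {c : ℝ} (h0 : 0 ≤ c) (h1 : c < 1) (htot : volKO s R' c ≤ volKO s R c) {j : ℕ} (hj : j ≤ N) :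
    volP s R' c hj = volP s R c hj :=
  swpR h hR (fun _ hj _ hl => pfx_full hst hR h0 h1 hj hl) htot hj

end

end Pool.Agent.Helper99.MX
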