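import Pool.Agent.Helper99.MX.Sws
import Pool.Agent.Helper7.RD.Pf
import Pool.Agent.Helper95.VIS.Viso
import Pool.Agent.Helper84.KR.Rate2

/-! [PFXL] (helper49) PREFIX NUMBERS FROM A LITERAL FLAG. A flag of rows over a literal K-label of the window, the total
exponent is the exact number and the prefixes are full over the label. Then the exponents of the flag are the exact
numbers of all prefixes. (Swap of prefixes: the smaller class are the K-labels which are functions of the literal label.) -/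

set_option autoImplicit false

namespace Pool.Agent.Helper99.MX

open Finset Filter Topology Matrix Pool.Agent.Helper69.RK Pool.Agent.Helper31.EC Pool.Agent.Helper31.EC.Sp
open Pool.Agent.Helper40.EL Pool.Agent.Helper89.LX Pool.Agent.Helper3.LF Pool.Agent.Helper84.MT
open Pool.Agent.Helper36.AM Pool.Agent.Helper84.KR Pool.Agent.Helper89.RAK
open Pool.Agent.Helper7.RD (PZ upz PLe_upz volC volCO volC_eq volC_le_of volCO_le volCO_le_M volCO_mono adfK_mono
  optK_dom volCO_bdd)
open Pool.Agent.Helper7.GZ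
open Pool.Agent.Helper18.PRM Pool.Agent.Helper18.SRT
open Pool.Agent.Helper87.NSL (cndR KnS)
open Pool.Agent.Helper29.MX

noncomputable section

variable {S : Sp} {M N D m : ℕ} {ι : Type}

/-- the entropy over a label without leak at a partition is at least the entropy over the partition -/
theorem H_lit_le {l : Lab S} {W : Rsl S} (h : Nul S fun k => (l k).leak (fc (W k))) (X : S.L) :
    H (up1 (Lab.ofZ W) X) ≤ H (up1 l X) := by
  rw [Pool.Agent.Helper84.KR.H_up1_ofZ, l.H_upL 1 one_pos X, div_one]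
  have hu : UB (fun k => Pool.Agent.Helper31.EC.h ((l k).p.map (rp X k)) (l k).v / (S.F k).n) := by
    refine UB.sandwich (UB_const 0) ((rp_Bd X).ub (fun _ => ⊥)) ?_ ?_
    · exact Eventually.of_forall fun k => div_nonneg (h_nonneg _ _) (S.F k).pos.le
    · refine Eventually.of_forall fun k => div_le_div_of_nonneg_right ?_ (S.F k).pos.le
      rw [h_bot, ← (l k).p.H_map]
      exact h_le_H _ _
  have hu' : UB (fun k => Pool.Agent.Helper31.EC.h (rp X k) (fc (W k)) / (S.F k).n) := (rp_Bd X).ub _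
  have t2 := (ul_tendsto hu).add h
  rw [add_zero] at t2
  refine le_of_tendsto_of_tendsto (ul_tendsto hu') t2 (Eventually.of_forall fun k => ?_)
  show Pool.Agent.Helper31.EC.h (rp X k) (fc (W k)) / (S.F k).n ≤
    Pool.Agent.Helper31.EC.h ((l k).p.map (rp X k)) (l k).v / (S.F k).n + (l k).leak (fc (W k)) / (S.F k).n
  rw [← add_div]
  refine div_le_div_of_nonneg_right ?_ (S.F k).pos.le
  have h2 := Pool.Agent.Helper95.VIS.h_le_leak (l k) (rp X k) (fc (W k))
  linarith

/-- conditions of a smaller class: also no leak at the partition `B` -/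
def cnX {κ : Type} (A : κ → Part S) (B : Part S) : Option κ → Part S
  | none => B
  | some i => A i

/-- VOLUMES FROM BELOW: entropy over the labels of the class -/
theorem le_volCO {κ : Type} [Finite κ] {A : κ → Part S} {C : LC S} {Q : S.VV M} {v : ℝ}
    (h : ∀ l : Lab S, l.DMf A → C.ev l → v ≤ H (up1 l (Q.dg 1))) : v ≤ volCO C A Q := by
  refine le_ciInf fun D => ?_
  refine le_trans ?_ (volC_deg Q C A (le_max_left D 1))
  obtain ⟨x, hx⟩ := (gaq Q (max D 1)).exists_optfK C A
  rw [volC_eq hx]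
  exact (h (lb x) (Gau.Adf.dm (gaq Q (max D 1)) hx.1.1) hx.1.2).trans
    (Pool.Agent.Helper14.MC.cnt_vol Q (le_max_right D 1) x hx.1.1)

/-- [PFXL] -/
theorem pfx_flag [Finite ι] {E : ℕ → ℕ} {s : MSys S N E ι} {R : Rsl S} (hR : Pt s R) {Z : ZU S} (z : PZ Z s.Q N)
    (hk : KLb s R Z.c Z.l) {W : Rsl S} (hW : Z.l = Lab.ofZ W) (tri : ∀ k ω j, ∀ i ∈ (z.R.p k ω j).vars, i ≤ j)
    {lam : Fin N → ℝ} (ex : ∀ e : ℝ, 0 < e → Typ (S := Z.l.sp) (fun k (ω : (Z.l k).T.Ω) => ∀ j,
      2 ^ ((lam j - e) * (S.F k).n) ≤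
        |MvPolynomial.eval (s.Q.v k ((Z.l k).p.π ω)) (MvPolynomial.pderiv j (z.R.p k ω j))|))
    (hlow : ∀ (j : ℕ) (hj : j < N), (j : ℝ) - ∑ i : Fin j, lam (Fin.castLE hj.le i) ≤
      H (up1 Z.l ((pfx s.Q hj.le).dg 1)))
    (htot : (N : ℝ) - ∑ i, lam i ≤ volKO s R Z.c) {j : ℕ} (hj : j ≤ N) :
    volP s R Z.c hj = j - ∑ i : Fin j, lam (Fin.castLE hj i) := by
  obtain ⟨A', hA'⟩ : ∃ A' : Option (Option ι) → Part S, A' = cnX (cndR s R Z.c) (fun k => fc (W k)) := ⟨_, rfl⟩
  -- the label is in the smaller class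
  have hd : Z.l.DMf A' := by
    intro i
    rw [hA']
    rcases i with _ | i
    · have h1 : (Lab.ofZ W).DMf (fun _ : Unit => fun k => fc (W k)) := (Lab.ofZ_DMf W).mpr fun _ => PLe.refl _
      rw [hW]
      exact h1 ()
    · exact hk.1 i
  -- volumes of the prefixes over the smaller class, from above
  have hup : ∀ {j : ℕ} (hj : j ≤ N), volCO (KZ R) A' (pfx s.Q hj) ≤ j - ∑ i : Fin j, lam (Fin.castLE hj i) := by
    intro j hj
    have h1 := z.volP_le (A := A') (B := fun i => upz Z (A' i)) tri hd (fun i => ⟨i, PLe.refl _⟩) hk.2 lam ex hj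
    have h2 : volCO (LC.kz (upz Z fun k => fc (R k))) (fun i => upz Z (A' i)) (pfx z.X hj) ≤ j := volCO_le_M
    have h3 := mul_nonneg Z.hu.le (sub_nonneg.2 h2)
    linarith
  -- entropies over the labels of the smaller class
  have hen : ∀ (j : ℕ) (hj : j < N) (l : Lab S), l.DMf A' → (KZ R).ev l →
      (j : ℝ) - ∑ i : Fin j, lam (Fin.castLE hj.le i) ≤ H (up1 l ((pfx s.Q hj.le).dg 1)) := by
    intro j hj l h1 _
    refine (hlow j hj).trans ?_
    rw [hW]
    refine H_lit_le ?_ _
    have h2 := h1 none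
    rw [hA'] at h2
    exact h2
  have hsw : ∀ {j : ℕ} (hj : j ≤ N), volCO (KZ R) A' (pfx s.Q hj) = volP s R Z.c hj := by
    intro j hj
    refine swp (σ := id) Function.injective_id hR (fun l hl => hl) (fun i => ⟨some i, ?_⟩)
      (fun j hj l h1 h2 => (hup hj.le).trans (hen j hj l h1 h2)) ?_ hj
    · rw [hA']
      exact PLe.refl _
    · have h1 := hup (le_refl N)
      have h2 : ∑ i : Fin N, lam (Fin.castLE le_rfl i) = ∑ i, lam i := rfl
      rw [h2] at h1
      rw [volKO_eq] at htot
      exact h1.trans htot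
  apply le_antisymm
  · rw [← hsw hj]
    exact hup hj
  · rcases hj.lt_or_eq with h1 | h1
    · rw [← hsw hj]
      exact le_volCO fun l a b => hen j h1 l a b
    · subst h1
      exact htot.trans (Pool.Agent.Helper7.RD.volP_self s R Z.c).ge

end

end Pool.Agent.Helper99.MX
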