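import Pool.Agent.Helper99.MX.Mci
import Pool.Agent.Helper49.KL.Rig

/-! LITERAL OPTIMAL FORMS ON EVENTS (OPTCL of helper95, event half). If the number of the window is exact on the space and
on the event and there is a literal K-label with a frame, then literal optimal forms of the space are optimal on the
event. -/

set_option autoImplicit false

namespace Pool.Agent.Helper99.MX

open Finset Filter Topology Matrix MvPolynomial Pool.Agent.Helper69.RK Pool.Agent.Helper31.EC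
open Pool.Agent.Helper31.EC.Sp
open Pool.Agent.Helper40.EL Pool.Agent.Helper89.LX Pool.Agent.Helper3.LF Pool.Agent.Helper84.MT
open Pool.Agent.Helper95.LF Pool.Agent.Helper36.AM Pool.Agent.Helper7.GZ Pool.Agent.Helper26.BXD
open Pool.Agent.Helper95.VIS (rdm rC one_le_rC rX rv rG rv_supp rX_ge rdm_eq_near MinC MinA opt_knows sqrt_pow
  sqrt_tendsto domJ_sc_le)
open Pool.Agent.Helper33.LIT Pool.Agent.Helper66.NJ Pool.Agent.Helper49.KL
open Pool.Agent.Helper7.RD (volC volCO volC_le_of volCO_le upz optK_dom)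
open Pool.Agent.Helper89.RAK (DomJ)
open Pool.Agent.Helper87.NSL (cndR KnS)
open Pool.Agent.Helper29.MX
open Pool.Agent.Helper81.CPY (frmI ple_im typ_im)

noncomputable section

/-! ### literal forms -/

section lit
variable {S : Sp} {ι : Type} [Fintype ι] [DecidableEq ι]

/-- domination of literal forms -/
theorem domJ_lit {W W' : ∀ k, Setoid (S.F k).Ω} {G G' : ∀ k, (S.F k).Ω → Matrix ι ι ℝ}
    (hG : ∀ᶠ k in UF, Kn1 (W k) (G k)) (hG' : ∀ᶠ k in UF, Kn1 (W' k) (G' k)) :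
    DomJ (fun k => zFD (W k) (G k)) (fun k => zFD (W' k) (G' k)) ↔ ∀ e : ℝ, 0 < e →
      Typ (S := S) (fun k (ω : (S.F k).Ω) => ∀ v, qf (G' k ω) v ≤ 2 ^ (e * (S.F k).n) * qf (G k ω) v) := by
  have key : ∀ e : ℝ, (fun k => ((zFD (W k) (G k)).jj (zFD (W' k) (G' k))).l.T.pb (fun w =>
      ¬ ∀ v, qf (((zFD (W k) (G k)).jj (zFD (W' k) (G' k))).g' w) v ≤
        2 ^ (e * (S.F k).n) * qf (((zFD (W k) (G k)).jj (zFD (W' k) (G' k))).g w) v)) =ᶠ[UF]
      fun k => mass (res (S.F k).μ (fun ω => ¬ ∀ v, qf (G' k ω) v ≤ 2 ^ (e * (S.F k).n) * qf (G k ω) v)) := by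
    intro e
    filter_upwards [hG, hG'] with k a b
    have h1 := pb_push ((zFD (W k) (G k)).l.am (zFD (W' k) (G' k)).l).p1
      (fun ω : (S.F k).Ω => ¬ ∀ v, qf (G' k ω) v ≤ 2 ^ (e * (S.F k).n) * qf (G k ω) v)
    have h2 : (zFD (W k) (G k)).l.T.pb (fun ω : (S.F k).Ω => ¬ ∀ v, qf (G' k ω) v ≤
        2 ^ (e * (S.F k).n) * qf (G k ω) v) = mass (res (S.F k).μ (fun ω => ¬ ∀ v, qf (G' k ω) v ≤
          2 ^ (e * (S.F k).n) * qf (G k ω) v)) := rfl
    rw [← h2, ← h1]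
    have h3 : ∀ w, ((zFD (W k) (G k)).l.am (zFD (W' k) (G' k)).l).sp.μ w ≠ 0 →
        (((zFD (W k) (G k)).jj (zFD (W' k) (G' k))).g' w = G' k (((zFD (W k) (G k)).l.am (zFD (W' k) (G' k)).l).p1.π w) ∧
          ((zFD (W k) (G k)).jj (zFD (W' k) (G' k))).g w =
            G k (((zFD (W k) (G k)).l.am (zFD (W' k) (G' k)).l).p1.π w)) := by
      intro w hw
      have e1 : (zFD (W k) (G k)).l.p.π (((zFD (W k) (G k)).l.am (zFD (W' k) (G' k)).l).p1.π w) =
          (zFD (W' k) (G' k)).l.p.π (((zFD (W k) (G k)).l.am (zFD (W' k) (G' k)).l).p2.π w) :=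
        (zFD (W k) (G k)).jj_supp (zFD (W' k) (G' k)) w hw
      have e2 : (((zFD (W k) (G k)).l.am (zFD (W' k) (G' k)).l).p1.π w : (S.F k).Ω) =
          (((zFD (W k) (G k)).l.am (zFD (W' k) (G' k)).l).p2.π w : (S.F k).Ω) := e1
      refine ⟨?_, ?_⟩
      · show (zFD (W' k) (G' k)).g (((zFD (W k) (G k)).l.am (zFD (W' k) (G' k)).l).p2.π w) = _
        rw [zFD_g b]
        exact congrArg (G' k) e2.symm
      · show (zFD (W k) (G k)).g (((zFD (W k) (G k)).l.am (zFD (W' k) (G' k)).l).p1.π w) = _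
        rw [zFD_g a]
    apply le_antisymm
    · apply FSp.pb_mono
      intro w hw h4
      obtain ⟨e3, e4⟩ := h3 w hw
      rw [e3, e4] at h4
      exact h4
    · apply FSp.pb_mono
      intro w hw h4
      obtain ⟨e3, e4⟩ := h3 w hw
      rw [e3, e4]
      exact h4
  constructor
  · intro h e he
    exact (h e he).congr' (key e)
  · intro h e he
    exact (h e he).congr' (key e).symm

end lit

/-! ### events -/

section im
variable {S T : Sp} {N D : ℕ} {E : ℕ → ℕ} {ι : Type} {s : MSys S N E ι} {R : Rsl S} {w : Fin N → ℝ} {c : ℝ} {κ : ℕ}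
  (p : Pj T S) (A : ∀ k, (T.F k).Ω → Prop) (hA : 0 < ul (T.pr A))

theorem kn1_im {β : Type} {W : Rsl S} {G : ∀ k, (S.F k).Ω → β} (hG : ∀ᶠ k in UF, Kn1 (W k) (G k)) :
    ∀ᶠ k in UF, Kn1 (F := (Sp.im p A).F k) (W k) (G k) := by
  filter_upwards [hG] with k hk ω ω' a b c d
  exact hk ω ω' (FSp.im_supp (p.fp k) (A k) ω a) (FSp.im_supp (p.fp k) (A k) ω' b) c d

/-- a literal form as a literal form with total measurability -/
def lfz {ι : Type} [Fintype ι] [DecidableEq ι] (W : Rsl S) (G : ∀ k, (S.F k).Ω → Matrix ι ι ℝ) : LF S ι where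
  Z := W
  G := fun k => gG (W k) (G k)
  meas := fun k ω ω' a b c d => gG_kn (W k) (G k) ω ω' a b c d

/-- literal admissible forms on events -/
theorem kad_im [Finite ι] {W : Rsl S} {G : ∀ k, (S.F k).Ω → Matrix (Mon N D) (Mon N D) ℝ}
    (hG : ∀ᶠ k in UF, Kn1 (W k) (G k)) (h : KAd s R D c (fun k => zFD (W k) (G k))) :
    KAd (s.im p A hA) R D c (fun k => zFD (F := (Sp.im p A).F k) (W k) (G k)) := by
  have h2 := LF.im_adfK (Φ := gaq s.Q D) (p := p) (E := A) (L := lfz W G) h hA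
  rw [← gaq_im] at h2
  have hG' := kn1_im p A hG
  refine ⟨fun η hη => ?_, h2.2⟩
  filter_upwards [h2.1 η hη, hG, hG'] with k a b b'
  have e1 : (((lfz W G).im p A).fd k).g = G k := gG_eq b
  have e2 : (zFD (F := (Sp.im p A).F k) (W k) (G k)).g = G k := zFD_g b'
  have e3 : (zFD (F := (Sp.im p A).F k) (W k) (G k)).g' = G k := zFD_g' b'
  refine ⟨fun i => ?_, fun ω hω => ?_, ?_, ?_⟩
  · have h3 := a.1 i
    rcases i with _ | i
    · exact h3
    · exact h3
  · have h3 := (a.2.1 ω hω).1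
    rw [e1] at h3
    rw [e2, e3]
    exact ⟨h3, h3⟩
  · have h3 := a.2.2.1
    rw [e1] at h3
    rw [e2]
    exact h3
  · have h3 := a.2.2.1
    rw [e1] at h3
    rw [e3]
    exact h3

/-- [OPTCL], events: LITERAL OPTIMAL FORMS STAY OPTIMAL -/
theorem kop_im [Finite ι] (hw : ∀ j, 1 ≤ w j) (hκ : ∀ j, w j ≤ κ) (h0 : 0 ≤ c) (h1 : ∀ j, w j * c < 1)
    (hT' : (N : ℝ) - (∑ j, w j) * c ≤ volKO (s.im p A hA) R c) {X : Rsl S}
    (hlit : ∀ᶠ k in UF, R k ⊓ (S.F k).Z ≤ X k) (hl : KLb s R c (Lab.ofZ X))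
    (f : Frm s.Q (Lab.ofZ X) fun j => w j * c) {W : Rsl S} {G : ∀ k, (S.F k).Ω → Matrix (Mon N D) (Mon N D) ℝ}
    (hG : ∀ᶠ k in UF, Kn1 (W k) (G k)) (ho : KOp s R D c (fun k => zFD (W k) (G k))) :
    KOp (s.im p A hA) R D c (fun k => zFD (F := (Sp.im p A).F k) (W k) (G k)) := by
  have hG' := kn1_im p A hG
  have ha := kad_im p A hA hG ho.1
  -- the form of the box on the space
  have hx : KAd s R D c (fun k => zFD (X k) (gfx f D κ k)) := by
    have h2 : (gaq s.Q D).Adf (cndR s R c) (bfm f D κ) :=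
      bfm_adf f (frm_degw f h0 hw hκ) hl.1 (wnn hw h0) (fun j => (h1 j).le) D
    have hg := bfm_lit f (frm_degw f h0 hw hκ) (wnn hw h0) (fun j => (h1 j).le) D
    have hg' : ∀ᶠ k in UF, ∀ ω, (S.F k).μ ω ≠ 0 → (zFD (X k) (gfx f D κ k)).g' ω = (bfm f D κ k).g' ω := hg
    refine ⟨fun η hη => ?_, hl.2⟩
    filter_upwards [h2 η hη, hg, hg'] with k a b b'
    refine ⟨a.1, fun ω hω => ?_, ?_, ?_⟩
    · have h3 := a.2.1 ω hω
      rw [b ω hω, b' ω hω]
      exact h3
    · refine le_trans (FSp.pb_mono _ ?_) a.2.2.1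
      intro ω hω h3
      rw [b ω hω] at h3
      exact h3
    · refine le_trans (FSp.pb_mono _ ?_) a.2.2.2
      intro ω hω h3
      rw [b' ω hω] at h3
      exact h3
  have hd := (domJ_lit hG (Eventually.of_forall fun k => gfx_kn f D κ k)).mp (optK_dom ho hx)
  -- on the event
  have hkx : ∀ᶠ k in UF, Kn1 (F := (Sp.im p A).F k) (X k) (gfx f D κ k) :=
    kn1_im p A (Eventually.of_forall fun k => gfx_kn f D κ k)
  have hd' : DomJ (S := Sp.im p A) (fun k => zFD (F := (Sp.im p A).F k) (W k) (G k))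
      (fun k => zFD (F := (Sp.im p A).F k) (X k) (gfx f D κ k)) :=
    (domJ_lit (S := Sp.im p A) hG' hkx).mpr fun e he => typ_im p A hA (hd e he)
  have hxo : KAd (s.im p A hA) R D c (fun k => zFD (F := (Sp.im p A).F k) (X k) (gfx f D κ k)) :=
    kad_im p A hA (Eventually.of_forall fun k => gfx_kn f D κ k) hx
  have hb := fcar_lit (S := Sp.im p A) (s := s.im p A hA) hw hκ h0 h1 hT' (klb_im_lit p A hA hlit hl) (frmI p A f) D
  have hge : ∀ᶠ k in UF, ∀ ω : (S.F k).Ω, gfx (S := Sp.im p A) (frmI p A f) D κ k ω = gfx f D κ k ω := by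
    filter_upwards [fP_ev f, fP_ev (frmI p A f)] with k a b ω
    have e2 : (frmI p A f).P k ω = f.P k ω := rfl
    have e3 : scl (fun j => w j * c) (Sp.im p A) k = scl (fun j => w j * c) S k := rfl
    unfold gfx gfm
    rw [a, b, e2, e3]
  refine ⟨ha, fun y hy => (hb.2 y hy).trans ?_⟩
  have h4 := domJ_sc_le (gaq (s.im p A hA).Q D) hd' ha.1 hxo.1
  refine le_trans (le_of_eq ?_) h4
  apply Pool.Agent.Helper31.EC.ul_congr
  filter_upwards [hge, hkx] with k a b
  have e4 : gfx (S := Sp.im p A) (frmI p A f) D κ k = gfx f D κ k := funext fun ω => a ω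
  exact congrArg (fun g => (zFD (F := (Sp.im p A).F k) (X k) g).sc / ((Sp.im p A).F k).n) e4

end im

end

end Pool.Agent.Helper99.MX
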